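import Pool.Agent.W363.JQ.Stm
import Pool.Agent.Helper202.Univ

set_option autoImplicit false
open Filter Topology Set Metric

namespace Pool.Agent.W381.JQ

open Pool.Agent.W363.JQ Pool.Agent.Helper202.Univ

theorem ninj (h : Pool.Agent.W363.JQ.S_exn) : Pool.Agent.W363.JQ.S_ninj := by
  intro f r U hB hEx hUo hUc hUK hfr hmap hinj
  have hr : 0 < r := hEx.1
  have hFd : Differentiable ℂ (fun z : ℂ => f.eval z) := f.differentiable
  have hFc : Continuous (fun z : ℂ => f.eval z) := hFd.continuous
  have hUb : Bornology.IsBounded U := hB.cpt.isBounded.subset hUK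
  have hUint : U ⊆ interior (KK f) := interior_maximal hUK hUo
  have hUJ : ∀ z ∈ U, z ∉ JJ f := by
    intro z hz hzJ
    exact (disjoint_interior_frontier (s := KK f)).le_bot ⟨hUint hz, hzJ⟩
  have hcl : ∀ z ∈ closure U, z ∉ JJ f → z ∈ U := by
    intro z hz hzJ
    by_contra hzU
    exact hzJ (hfr (by rw [hUo.frontier_eq]; exact ⟨hz, hzU⟩))
  -- surjectivity
  have himg : (fun z : ℂ => f.eval z) '' U = U := by
    apply Subset.antisymm
    · rintro _ ⟨z, hz, rfl⟩
      exact hmap z hz
    · apply hUc.isPreconnected.subset_of_closure_inter_subset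
      · exact isOpen_image hUo hFd.differentiableOn hinj hUo subset_rfl
      · obtain ⟨z, hz⟩ := hUc.nonempty
        exact ⟨f.eval z, hmap z hz, mem_image_of_mem _ hz⟩
      · rintro y ⟨hy, hyU⟩
        have hK : IsCompact ((fun z : ℂ => f.eval z) '' closure U) :=
          (hUb.isCompact_closure).image hFc
        have h1 : closure ((fun z : ℂ => f.eval z) '' U) ⊆ (fun z : ℂ => f.eval z) '' closure U :=
          closure_minimal (image_mono subset_closure) hK.isClosed
        obtain ⟨x, hx, rfl⟩ := h1 hy
        have hxJ : x ∉ JJ f := fun hx' => hUJ _ hyU ((hB.invJ x).2 hx')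
        exact mem_image_of_mem _ (hcl x hx hxJ)
  have hitd : ∀ n, Differentiable ℂ (it f n) := fun n => hFd.iterate n
  have hit : ∀ n, InjOn (it f n) U ∧ (it f n) '' U = U := by
    intro n
    induction n with
    | zero =>
      constructor
      · intro a _ b _ hab
        simpa [it] using hab
      · simp [it]
    | succ n ih =>
      constructor
      · have : it f (n + 1) = it f n ∘ (fun z : ℂ => f.eval z) := Function.iterate_succ _ _
        rw [this]
        exact ih.1.comp hinj (fun z hz => hmap z hz)
      · have : it f (n + 1) = it f n ∘ (fun z : ℂ => f.eval z) := Function.iterate_succ _ _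
        rw [this, image_comp, himg, ih.2]
  -- inverse maps
  set G : ℕ → ℂ → ℂ := fun n => Function.invFunOn (it f n) U with hG
  have hGmem : ∀ n, ∀ z ∈ U, G n z ∈ U := by
    intro n z hz
    have : z ∈ it f n '' U := by rw [(hit n).2]; exact hz
    exact invFunOn_mem this
  have hGright : ∀ n, ∀ z ∈ U, it f n (G n z) = z := by
    intro n z hz
    have : z ∈ it f n '' U := by rw [(hit n).2]; exact hz
    exact invFunOn_right this
  have hGdiff : ∀ n, DifferentiableOn ℂ (G n) U := by
    intro n z hz
    have : z ∈ it f n '' U := by rw [(hit n).2]; exact hz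
    exact (differentiableAt_inv hUo (hitd n).differentiableOn (hit n).1 this).differentiableWithinAt
  -- the estimate near J
  have hnear : ∀ n, ∀ z ∈ U, infDist z (JJ f) < r → ‖deriv (G n) z‖ ≤ 1 / 2 ^ n := by
    intro n z hz hd
    obtain ⟨x, hxJ, hx⟩ := (infDist_lt_iff hB.jne).1 hd
    obtain ⟨g, hgd, hgz, -, hgr, hgc⟩ := (h f r hB hEx n).2 x hxJ z (mem_ball.2 hx) (G n z)
      (hGright n z hz)
    have hgcont : ContinuousAt g z :=
      (hgd.differentiableAt (isOpen_ball.mem_nhds (mem_ball.2 hx))).continuousAt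
    have h1 : ∀ᶠ u in 𝓝 z, g u ∈ U := by
      apply hgcont.eventually_mem
      rw [hgz]
      exact hUo.mem_nhds (hGmem n z hz)
    apply norm_deriv_le_of_lip' (by positivity)
    filter_upwards [h1, hUo.mem_nhds hz, isOpen_ball.mem_nhds (mem_ball.2 hx)] with u hu1 hu2 hu3
    have h2 : g u = G n u := by
      apply (hit n).1 hu1 (hGmem n u hu2)
      rw [hgr u hu3, hGright n u hu2]
    rw [← h2, ← hgz, ← dist_eq_norm, ← dist_eq_norm]
    have := hgc u hu3 z (mem_ball.2 hx)
    calc dist (g u) (g z) ≤ dist u z / 2 ^ n := this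
      _ = 1 / 2 ^ n * dist u z := by ring
  -- maximum principle
  have hall : ∀ n, ∀ z ∈ U, ‖deriv (G n) z‖ ≤ 1 / 2 ^ n := by
    intro n z hz
    by_cases hzd : infDist z (JJ f) < r
    · exact hnear n z hz hzd
    push Not at hzd
    set U' : Set ℂ := {z | z ∈ U ∧ r / 2 < infDist z (JJ f)} with hU'
    have hU'o : IsOpen U' := hUo.inter (isOpen_lt continuous_const (continuous_infDist_pt _))
    have hU'b : Bornology.IsBounded U' := hUb.subset (fun z hz => hz.1)
    have hclU' : ∀ w ∈ closure U', w ∈ U ∧ r / 2 ≤ infDist w (JJ f) := by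
      intro w hw
      have h1 : w ∈ closure U := closure_mono (fun z hz => hz.1) hw
      have h2 : w ∈ {z | r / 2 ≤ infDist z (JJ f)} := by
        have : IsClosed {z : ℂ | r / 2 ≤ infDist z (JJ f)} :=
          isClosed_le continuous_const (continuous_infDist_pt _)
        exact closure_minimal (fun z hz => (hz.2).le) this hw
      have h3 : w ∉ JJ f := by
        intro hwJ
        have h4 : infDist w (JJ f) = 0 := infDist_zero_of_mem hwJ
        simp only [mem_ofPred_eq] at h2
        linarith
      exact ⟨hcl w h1 h3, h2⟩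
    have hd : DifferentiableOn ℂ (deriv (G n)) U := (hGdiff n).deriv hUo
    have hdc : DiffContOnCl ℂ (deriv (G n)) U' := by
      apply DifferentiableOn.diffContOnCl
      exact hd.mono (fun w hw => (hclU' w hw).1)
    apply Complex.norm_le_of_forall_mem_frontier_norm_le hU'b hdc
    · intro w hw
      rw [hU'o.frontier_eq] at hw
      obtain ⟨h1, h2⟩ := hclU' w hw.1
      apply hnear n w h1
      by_contra hcon
      push Not at hcon
      exact hw.2 ⟨h1, by linarith⟩
    · exact subset_closure ⟨hz, by linarith⟩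
  -- Cauchy
  obtain ⟨q, hq⟩ := hUc.nonempty
  obtain ⟨δ, hδ, hδU⟩ := Metric.nhds_basis_closedBall.mem_iff.1 (hUo.mem_nhds hq)
  obtain ⟨M, hM⟩ := hUb.exists_norm_le
  have hbound : ∀ n, (2 : ℝ) ^ n ≤ M / δ := by
    intro n
    have h1 : ‖deriv (it f n) q‖ ≤ M / δ := by
      apply Complex.norm_deriv_le_of_forall_mem_sphere_norm_le hδ
      · exact (hitd n).diffContOnCl
      · intro z hz
        apply hM
        rw [← (hit n).2]
        exact mem_image_of_mem _ (hδU (sphere_subset_closedBall hz))
    have h2 : HasDerivAt (G n) (deriv (it f n) q)⁻¹ (it f n q) :=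
      hasDerivAt_inv hUo (hitd n).differentiableOn (hit n).1 hq
    have h3 : deriv (it f n) q ≠ 0 := deriv_ne_zero hUo (hitd n).differentiableOn (hit n).1 hq
    have h4 : it f n q ∈ U := by
      rw [← (hit n).2]
      exact mem_image_of_mem _ hq
    have h5 := hall n _ h4
    rw [h2.deriv, norm_inv, one_div, inv_le_inv₀ (norm_pos_iff.2 h3) (by positivity)] at h5
    linarith
  obtain ⟨n, hn⟩ := pow_unbounded_of_one_lt (M / δ) (by norm_num : (1 : ℝ) < 2)
  have := hbound n
  linarith

end Pool.Agent.W381.JQ
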